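import Pool.Agent.Lib.MP_ca5fa5_an.Final1

set_option autoImplicit false

open MeasureTheory Filter Topology Set
open scoped ComplexConjugate ContDiff

namespace Pool.Agent.Results.MP_ca5fa5_an.HeatRatioCounterexample

open Pool.Agent.HeatRatio

lemma S0_coeff_smooth {S : ℝ → ℝ} (hS : Resist S) (i j : Fin 1) :
    ContDiff ℝ ∞ fun x : E 1 => (HH S hS).A x i j := by
  have h1 : ContDiff ℝ ∞ (deriv S) := (contDiff_infty_iff_deriv.1 hS.smooth).2
  have hc : ContDiff ℝ ∞ (fun x : E 1 => x 0) :=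
    (EuclideanSpace.proj (0 : Fin 1) : E 1 →L[ℝ] ℝ).contDiff
  exact contDiff_const.div (h1.comp hc) fun x => (hS.pos _).ne'

/-- Positivity of the kernel of the critical operator on the diagonal. -/
lemma k0_pos {k Φ : ℝ → ℝ}
    (hk : ∀ T l L, 0 < T → 0 < l → l ≤ L →
      l / Real.exp 1 * (Φ l - Φ L - 2 * L * T * Φ (1 / T)) ≤ k T)
    (hL : ∀ l x1, 0 < l → 0 < x1 → S0 x1 / 2 - l * x1 * (S0 x1) ^ 2 / 2 ≤ Φ l) {T : ℝ}
    (hT : 0 < T) : 0 < k T := by
  obtain ⟨x, hx⟩ := S0_unbounded (2 * (Φ 1 + 2 * 1 * T * Φ (1 / T) + 1))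
  obtain ⟨x', hx'⟩ := S0_unbounded (max (S0 x) (S0 1))
  have h1 : S0 x < S0 x' := lt_of_le_of_lt (le_max_left _ _) hx'
  have h2 : 1 < x' := S0_resist.strictMono.lt_iff_lt.1 (lt_of_le_of_lt (le_max_right _ _) hx')
  have hS : 0 < S0 x' := by
    rw [← S0_resist.zero]
    exact S0_resist.strictMono (by linarith)
  have hpos : 0 < x' * S0 x' ^ 2 := by positivity
  set l : ℝ := min 1 (1 / (x' * S0 x' ^ 2)) with hl
  have hl0 : 0 < l := lt_min one_pos (by positivity)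
  have hl1 : l ≤ 1 := min_le_left _ _
  have h3 : l * x' * (S0 x') ^ 2 / 2 ≤ 1 / 2 := by
    have h4 : l ≤ 1 / (x' * S0 x' ^ 2) := min_le_right _ _
    rw [le_div_iff₀ hpos] at h4
    linarith
  have h5 := hL l x' hl0 (by linarith)
  have h6 := hk T l 1 hT hl0 hl1
  refine lt_of_lt_of_le ?_ h6
  have he := Real.exp_pos 1
  refine mul_pos (by positivity) ?_
  linarith

theorem result :
    ∃ H₀ H₁ : Coeff 1 (univ : Set (E 1)),
      (∀ i j, ContDiff ℝ ∞ fun x => H₀.A x i j) ∧ (∀ i j, ContDiff ℝ ∞ fun x => H₁.A x i j) ∧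
      (∀ x, H₀.V x = 0) ∧ (∀ x, H₁.V x = 0) ∧
      H₀.bottom (fun _ => 0) = 0 ∧ H₁.bottom (fun _ => 0) = 0 ∧ H₀.Critical ∧ H₁.Subcritical ∧
      ∃ k₀ k₁ : ℝ → E 1 → E 1 → ℝ, H₀.IsHeatKernel k₀ ∧ H₁.IsHeatKernel k₁ ∧
        (∀ t, 0 < t → 0 < k₀ t 0 0) ∧
        ∀ M T : ℝ, ∃ t ≥ T, M < k₁ t 0 0 / k₀ t 0 0 := by
  obtain ⟨k₀, Φ₀, hk0, hup0, hlow0, hU0, hL0⟩ := exists_green S0 S0_resist
  obtain ⟨k₁, Φ₁, hk1, hup1, hlow1, hU1, hL1⟩ := exists_green S1 S1_resist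
  have hpos : ∀ t, 0 < t → 0 < k₀ t 0 0 := fun t ht =>
    k0_pos (k := fun t => k₀ t 0 0) hlow0 hL0 ht
  refine ⟨HH S0 S0_resist, HH S1 S1_resist, S0_coeff_smooth S0_resist,
    S0_coeff_smooth S1_resist, fun _ => rfl, fun _ => rfl, H0_bottom, H1_bottom, H0_critical,
    H1_subcritical, k₀, k₁, hk0, hk1, hpos, fun M T => ?_⟩
  have he := Real.exp_pos 1
  -- choose n large
  obtain ⟨n, hn⟩ := exists_nat_gt (max T (M * (9 * 196608 * Real.exp 1)))
  have hnT : T < n := lt_of_le_of_lt (le_max_left _ _) hn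
  have hnM : M * (9 * 196608 * Real.exp 1) < n := lt_of_le_of_lt (le_max_right _ _) hn
  have hXb := XX_big n
  have hXpos : 0 < XX n := by linarith
  have hXl := XX_lin n
  refine ⟨XX n ^ 2, ?_, ?_⟩
  · have : (n : ℝ) ≤ XX n ^ 2 := by nlinarith
    linarith
  · have h0 := k0_upper (k := fun t => k₀ t 0 0) hup0 hU0 hL0 n
    have h1 := k1_lower (k := fun t => k₁ t 0 0) hlow1 hU1 hL1 n
    have h0' : k₀ (XX n ^ 2) 0 0 ≤ 9 * ((n : ℝ) + 3) ^ 2 / XX n ^ 3 := h0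
    have h1' : 1 / (196608 * Real.exp 1 * 16 ^ n * XX n ^ 2) ≤ k₁ (XX n ^ 2) 0 0 := h1
    have hk0pos := hpos (XX n ^ 2) (by positivity)
    rw [lt_div_iff₀ hk0pos]
    refine lt_of_lt_of_le ?_ h1'
    have hn0 : (0 : ℝ) ≤ n := Nat.cast_nonneg n
    rcases le_or_gt M 0 with hM | hM
    · have h2 : M * k₀ (XX n ^ 2) 0 0 ≤ 0 := mul_nonpos_of_nonpos_of_nonneg hM hk0pos.le
      exact lt_of_le_of_lt h2 (by positivity)
    · refine lt_of_le_of_lt (mul_le_mul_of_nonneg_left h0' hM.le) ?_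
      rw [mul_div_assoc', div_lt_div_iff₀ (by positivity) (by positivity), one_mul]
      -- M 9 (n+3)² 196608 e 16^n X² < X³
      have h3 : ((n : ℝ) + 3) ^ 2 * 16 ^ n * n < XX n := by
        have h4 : (n : ℝ) + 3 ≤ 4 * 2 ^ n := by
          have := nat_le_pow n
          linarith
        have h5 : ((n : ℝ) + 3) ^ 2 ≤ (4 * 2 ^ n) ^ 2 := pow_le_pow_left₀ (by positivity) h4 2
        have h6 : (n : ℝ) ≤ 2 ^ n := by
          have := nat_le_pow n
          linarith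
        have h7 : (4 * 2 ^ n : ℝ) ^ 2 = 16 * 4 ^ n := by
          rw [mul_pow, ← pow_mul, mul_comm n 2, pow_mul]
          norm_num
        rw [h7] at h5
        have h8 : ((n : ℝ) + 3) ^ 2 * 16 ^ n * n ≤ (16 * 4 ^ n) * 16 ^ n * 2 ^ n := by
          have := mul_le_mul_of_nonneg_right h5 (show (0 : ℝ) ≤ 16 ^ n by positivity)
          exact mul_le_mul this h6 hn0 (by positivity)
        have h9 : (16 * 4 ^ n : ℝ) * 16 ^ n * 2 ^ n = 16 * 128 ^ n := by
          rw [mul_assoc, mul_assoc, ← mul_pow, ← mul_pow]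
          norm_num
        have h10 : (128 : ℝ) ^ n ≤ 256 ^ n := pow_le_pow_left₀ (by norm_num) (by norm_num) n
        have h11 := XX_ge' n
        have h12 : (0 : ℝ) < 256 ^ n := by positivity
        linarith
      have hnpos : 0 < (n : ℝ) := by
        have : 0 < M * (9 * 196608 * Real.exp 1) := by positivity
        linarith
      calc M * (9 * ((n : ℝ) + 3) ^ 2) * (196608 * Real.exp 1 * 16 ^ n * XX n ^ 2)
          = (M * (9 * 196608 * Real.exp 1)) * (((n : ℝ) + 3) ^ 2 * 16 ^ n * XX n ^ 2) := by ring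
        _ < n * (((n : ℝ) + 3) ^ 2 * 16 ^ n * XX n ^ 2) :=
            mul_lt_mul_of_pos_right hnM (by positivity)
        _ = (((n : ℝ) + 3) ^ 2 * 16 ^ n * n) * XX n ^ 2 := by ring
        _ < XX n * XX n ^ 2 := mul_lt_mul_of_pos_right h3 (by positivity)
        _ = XX n ^ 3 := by ring

end Pool.Agent.Results.MP_ca5fa5_an.HeatRatioCounterexample
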